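import Pool.Agent.Run7.h712.TS.Eng
import Pool.Agent.Run7.h712.TS.Kinds
import Pool.Agent.TH869.SQ.Cs

/-!
# Joint boxes of local functions at consecutive primes, for the members of well distributed families of integer vectors
-/

set_option autoImplicit false

namespace Pool.Agent.Run7.h712.CB

open Finset Filter
open Pool.Agent.TH894.NE (mean box mem_box Per mean_mono mean_const mean_prod card_box)
open Pool.Agent.N647.TS (WellN lawW)
open Pool.Agent.N666.TM (Well)
open Pool.Agent.TH869.SQ (pr pr_prime pr_inj qs qs_le qs_coprime)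
open Pool.Agent.Run7.h712.TS (nat nat_cast wellN_nat)

open Classical in
/-- indicator at one prime -/
noncomputable def ind1 {r : ℕ} (T : Fin r → Set ℝ) (w : Fin r → ℝ) : ℝ := if ∀ l, w l ∈ T l then 1 else 0

open Classical in
/-- indicator at `s` primes -/
noncomputable def ind {s r : ℕ} (I : Fin s → Fin r → Set ℝ) (w : Fin s → Fin r → ℝ) : ℝ :=
  if ∀ i l, w i l ∈ I i l then 1 else 0

theorem ind_eq_prod {s r : ℕ} (I : Fin s → Fin r → Set ℝ) (w : Fin s → Fin r → ℝ) :
    ind I w = ∏ i, ind1 (I i) (w i) := by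
  classical
  unfold ind ind1
  by_cases h : ∀ i l, w i l ∈ I i l
  · rw [if_pos h, prod_eq_one]
    intro i _
    rw [if_pos (h i)]
  · rw [if_neg h]
    push Not at h
    obtain ⟨i, l, hi⟩ := h
    rw [prod_eq_zero (mem_univ i)]
    rw [if_neg (fun h' => hi (h' l))]

theorem ind_nonneg {s r : ℕ} (I : Fin s → Fin r → Set ℝ) (w : Fin s → Fin r → ℝ) : 0 ≤ ind I w := by
  unfold ind; split_ifs <;> norm_num

theorem ind_le {s r : ℕ} (I : Fin s → Fin r → Set ℝ) (w : Fin s → Fin r → ℝ) : ind I w ≤ 1 := by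
  unfold ind; split_ifs <;> norm_num

theorem ind_abs {s r : ℕ} (I : Fin s → Fin r → Set ℝ) (w : Fin s → Fin r → ℝ) : |ind I w| ≤ 1 := by
  rw [abs_of_nonneg (ind_nonneg I w)]; exact ind_le I w

theorem ind_congr {s r : ℕ} {I J : Fin s → Fin r → Set ℝ} {w : Fin s → Fin r → ℝ}
    (h : ∀ i l, w i l ∈ I i l ↔ w i l ∈ J i l) : ind I w = ind J w := by
  unfold ind
  by_cases hI : ∀ i l, w i l ∈ I i l
  · rw [if_pos hI, if_pos (fun i l => (h i l).1 (hI i l))]
  · rw [if_neg hI, if_neg (fun hJ => hI (fun i l => (h i l).2 (hJ i l)))]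

section
variable {d r s : ℕ}

theorem mean_ind (k : ℕ) (a : ℕ → (Fin d → ℕ) → Fin r → ℝ) (ha : ∀ p v, a p v = a p (fun i => v i % p))
    (I : Fin s → Fin r → Set ℝ) :
    mean d (qs s k) (fun v => ind I (fun i => a (pr (k + i)) v)) =
      ∏ i : Fin s, mean d (pr (k + i)) (fun v => ind1 (I i) (a (pr (k + i)) v)) := by
  classical
  have h := mean_prod (d := d) (univ : Finset (Fin s)) (fun i : Fin s => pr (k + i)) (fun i _ => (pr_prime _).pos)
    (by
      intro i _ j _ hij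
      apply (Nat.coprime_primes (pr_prime _) (pr_prime _)).mpr
      intro he
      apply hij
      have := pr_inj he
      ext
      omega) (fun i v => ind1 (I i) (a (pr (k + i)) v)) (by
      intro i _ v
      show ind1 (I i) (a (pr (k + i)) v) = ind1 (I i) (a (pr (k + i)) (fun j => v j % pr (k + i)))
      rw [← ha])
  rw [← h]
  unfold qs
  congr 1
  funext v
  exact ind_eq_prod _ _

/-- the size of the moduli -/
def X (s K : ℕ) : ℕ := (4 * s ^ 2) ^ s * K ^ (2 * s)

theorem le_base (hs : 1 ≤ s) : s ≤ (4 * s ^ 2) ^ s ∧ 4 ≤ (4 * s ^ 2) ^ s := by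
  have h1 : 4 * s ^ 2 ≤ (4 * s ^ 2) ^ s := Nat.le_self_pow (by omega) _
  constructor
  · nlinarith
  · nlinarith

theorem le_X (hs : 1 ≤ s) (K : ℕ) (hK : 1 ≤ K) : K ≤ X s K ∧ s ≤ X s K ∧ 4 ≤ X s K := by
  unfold X
  obtain ⟨h1, h2⟩ := le_base hs
  have h3 : K ≤ K ^ (2 * s) := Nat.le_self_pow (by omega) _
  refine ⟨?_, ?_, ?_⟩
  · nlinarith
  · nlinarith
  · nlinarith

theorem qs_le_X (hs : 1 ≤ s) (K k : ℕ) (hk : k < K) : 1 ≤ qs s k ∧ qs s k ≤ X s K := by
  obtain ⟨h1, h2⟩ := qs_le s hs k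
  refine ⟨h1, h2.trans ?_⟩
  unfold X
  exact Nat.mul_le_mul_left _ (Nat.pow_le_pow_left (by omega) _)

theorem pr_dvd_qs (k : ℕ) (i : Fin s) : pr (k + i) ∣ qs s k :=
  dvd_prod_of_mem (fun i : Fin s => pr (k + i)) (mem_univ i)

theorem pr_le_X (hs : 1 ≤ s) (K k : ℕ) (hk : k < K) (i : Fin s) : pr (k + i) ≤ X s K := by
  obtain ⟨h1, h2⟩ := qs_le_X hs K k hk
  exact (Nat.le_of_dvd h1 (pr_dvd_qs k i)).trans h2

/-- the values of the local functions at the first primes -/
noncomputable def Th (a : ℕ → (Fin d → ℕ) → Fin r → ℝ) (K : ℕ) (i : Fin s) (l : Fin r) : Finset ℝ :=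
  (range K).biUnion (fun k => (box d (pr (k + i))).image (fun v => a (pr (k + i)) v l))

theorem card_Th (hs : 1 ≤ s) (a : ℕ → (Fin d → ℕ) → Fin r → ℝ) (K : ℕ) (hK : 1 ≤ K) (i : Fin s) (l : Fin r) :
    (Th a K i l).card ≤ (X s K) ^ (d + 1) := by
  unfold Th
  have h1 : ((range K).biUnion (fun k => (box d (pr (k + i))).image (fun v => a (pr (k + i)) v l))).card ≤
      ∑ k ∈ range K, (X s K) ^ d := by
    refine card_biUnion_le.trans (sum_le_sum fun k hk => card_image_le.trans ?_)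
    rw [card_box]
    exact Nat.pow_le_pow_left (pr_le_X hs K k (mem_range.1 hk) i) d
  rw [sum_const, card_range, smul_eq_mul] at h1
  refine h1.trans ?_
  rw [pow_succ, mul_comm]
  exact Nat.mul_le_mul_left _ (le_X hs K hK).1

theorem mem_Th (a : ℕ → (Fin d → ℕ) → Fin r → ℝ) (ha : ∀ p v, a p v = a p (fun i => v i % p)) (K : ℕ) (i : Fin s)
    (l : Fin r) (k : ℕ) (hk : k < K) (v : Fin d → ℕ) : a (pr (k + i)) v l ∈ Th a K i l := by
  unfold Th
  rw [mem_biUnion]
  refine ⟨k, mem_range.2 hk, ?_⟩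
  rw [mem_image]
  refine ⟨fun j => v j % pr (k + i), ?_, ?_⟩
  · rw [mem_box]
    intro j
    exact Nat.mod_lt _ (pr_prime _).pos
  · rw [← ha]

/-- the corners -/
noncomputable def Pi (a : ℕ → (Fin d → ℕ) → Fin r → ℝ) (s K : ℕ) : Finset (Fin s → Fin r → ℝ) :=
  Fintype.piFinset fun i => Fintype.piFinset fun l => Th a K i l

theorem card_Pi (hs : 1 ≤ s) (a : ℕ → (Fin d → ℕ) → Fin r → ℝ) (K : ℕ) (hK : 1 ≤ K) :
    (Pi a s K).card ≤ (X s K) ^ ((d + 1) * (s * r)) := by
  unfold Pi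
  rw [Fintype.card_piFinset]
  calc ∏ i : Fin s, (Fintype.piFinset fun l => Th a K i l).card ≤ ∏ _i : Fin s, ((X s K) ^ (d + 1)) ^ r := by
        refine prod_le_prod' fun i _ => ?_
        rw [Fintype.card_piFinset]
        calc ∏ l : Fin r, (Th a K i l).card ≤ ∏ _l : Fin r, (X s K) ^ (d + 1) :=
              prod_le_prod' fun l _ => card_Th hs a K hK i l
          _ = _ := by rw [prod_const, card_univ, Fintype.card_fin]
    _ = _ := by
      rw [prod_const, card_univ, Fintype.card_fin, ← pow_mul, ← pow_mul]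
      congr 1
      ring

/-- the closed boxes -/
def Jb (A B : Fin s → Fin r → ℝ) : Fin s → Fin r → Set ℝ := fun i l => Set.Icc (A i l) (B i l)

/-- every box is empty or closed, for the values which occur -/
theorem reduce (a : ℕ → (Fin d → ℕ) → Fin r → ℝ) (ha : ∀ p v, a p v = a p (fun i => v i % p)) (K : ℕ)
    (I : Fin s → Fin r → Set ℝ) (hI : ∀ i l, (I i l).OrdConnected) :
    (∀ k, k < K → ∀ v, ind I (fun i => a (pr (k + i)) v) = 0) ∨
      ∃ A ∈ Pi a s K, ∃ B ∈ Pi a s K, ∀ k, k < K → ∀ v,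
        ind I (fun i => a (pr (k + i)) v) = ind (Jb A B) (fun i => a (pr (k + i)) v) := by
  classical
  by_cases hne : ∃ i l, ∀ θ ∈ Th a K i l, θ ∉ I i l
  · left
    obtain ⟨i, l, hi⟩ := hne
    intro k hk v
    unfold ind
    rw [if_neg]
    intro hall
    exact hi _ (mem_Th a ha K i l k hk v) (hall i l)
  · right
    push Not at hne
    have hnon : ∀ i l, ((Th a K i l).filter (fun θ => θ ∈ I i l)).Nonempty := by
      intro i l
      obtain ⟨θ, h1, h2⟩ := hne i l
      exact ⟨θ, mem_filter.mpr ⟨h1, h2⟩⟩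
    have hA : ∀ i l, ((Th a K i l).filter (fun θ => θ ∈ I i l)).min' (hnon i l) ∈ Th a K i l ∧
        ((Th a K i l).filter (fun θ => θ ∈ I i l)).min' (hnon i l) ∈ I i l := fun i l =>
      mem_filter.mp (min'_mem ((Th a K i l).filter (fun θ => θ ∈ I i l)) (hnon i l))
    have hB : ∀ i l, ((Th a K i l).filter (fun θ => θ ∈ I i l)).max' (hnon i l) ∈ Th a K i l ∧
        ((Th a K i l).filter (fun θ => θ ∈ I i l)).max' (hnon i l) ∈ I i l := fun i l =>
      mem_filter.mp (max'_mem ((Th a K i l).filter (fun θ => θ ∈ I i l)) (hnon i l))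
    refine ⟨fun i l => ((Th a K i l).filter (fun θ => θ ∈ I i l)).min' (hnon i l),
      Fintype.mem_piFinset.mpr fun i => Fintype.mem_piFinset.mpr fun l => (hA i l).1,
      fun i l => ((Th a K i l).filter (fun θ => θ ∈ I i l)).max' (hnon i l),
      Fintype.mem_piFinset.mpr fun i => Fintype.mem_piFinset.mpr fun l => (hB i l).1, ?_⟩
    intro k hk v
    apply ind_congr
    intro i l
    have hθ := mem_Th a ha K i l k hk v
    show _ ↔ _ ∈ Set.Icc _ _
    rw [Set.mem_Icc]
    constructor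
    · intro h
      have hm : a (pr (k + i)) v l ∈ (Th a K i l).filter (fun θ => θ ∈ I i l) := mem_filter.mpr ⟨hθ, h⟩
      exact ⟨min'_le _ _ hm, le_max' _ _ hm⟩
    · intro h
      exact (hI i l).out (hA i l).2 (hB i l).2 h

end

end Pool.Agent.Run7.h712.CB
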