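import Pool.Agent.Run7.h712.CB.Eng

/-!
# Joint boxes of local functions at consecutive primes: the engine
-/

set_option autoImplicit false

namespace Pool.Agent.Run7.h712.CB

open Finset Filter
open Pool.Agent.TH894.NE (mean box mem_box Per mean_mono mean_const mean_prod card_box)
open Pool.Agent.N647.TS (WellN lawW)
open Pool.Agent.N666.TM (Well)
open Pool.Agent.TH869.SQ (pr pr_prime pr_inj qs qs_le qs_coprime)
open Pool.Agent.Run7.h712.TS (nat nat_cast wellN_nat)

section
variable {d r s : ℕ}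

open Classical in
/-- the labels: `(K, j, A, B)` -/
noncomputable def La (a : ℕ → (Fin d → ℕ) → Fin r → ℝ) (s x : ℕ) :
    Finset (ℕ × ℕ × (Fin s → Fin r → ℝ) × (Fin s → Fin r → ℝ)) :=
  ((range (x + 1)).filter (fun K => 1 ≤ K ∧ X s K = x)).biUnion (fun K =>
    ({K} : Finset ℕ) ×ˢ (range s ×ˢ (Pi a s K ×ˢ Pi a s K)))

theorem mem_La {a : ℕ → (Fin d → ℕ) → Fin r → ℝ} {s x : ℕ} {l : ℕ × ℕ × (Fin s → Fin r → ℝ) × (Fin s → Fin r → ℝ)} :
    l ∈ La a s x ↔ (l.1 ≤ x ∧ 1 ≤ l.1 ∧ X s l.1 = x) ∧ l.2.1 < s ∧ l.2.2.1 ∈ Pi a s l.1 ∧ l.2.2.2 ∈ Pi a s l.1 := by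
  classical
  unfold La
  rw [mem_biUnion]
  constructor
  · rintro ⟨K, hK, hl⟩
    rw [mem_filter, mem_range] at hK
    rw [mem_product, mem_product, mem_product, mem_singleton, mem_range] at hl
    rw [hl.1]
    exact ⟨⟨by omega, hK.2⟩, hl.2⟩
  · rintro ⟨⟨h1, h2, h3⟩, h4⟩
    refine ⟨l.1, ?_, ?_⟩
    · rw [mem_filter, mem_range]
      exact ⟨by omega, h2, h3⟩
    · rw [mem_product, mem_product, mem_product, mem_singleton, mem_range]
      exact ⟨rfl, h4⟩

theorem card_La (hs : 1 ≤ s) (a : ℕ → (Fin d → ℕ) → Fin r → ℝ) (x : ℕ) :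
    ((La a s x).card : ℝ) ≤ (x : ℝ) ^ (((2 * ((d + 1) * (s * r)) + 3 : ℕ) : ℝ)) := by
  classical
  rw [Real.rpow_natCast]
  by_cases h : ((range (x + 1)).filter (fun K => 1 ≤ K ∧ X s K = x)) = ∅
  · unfold La
    simp only [h, biUnion_empty, card_empty, Nat.cast_zero]
    positivity
  · obtain ⟨K₀, hK₀⟩ := nonempty_iff_ne_empty.2 h
    rw [mem_filter] at hK₀
    have hx := le_X hs K₀ hK₀.2.1
    rw [hK₀.2.2] at hx
    have h1 : (La a s x).card ≤ ∑ K ∈ (range (x + 1)).filter (fun K => 1 ≤ K ∧ X s K = x),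
        x * (x ^ ((d + 1) * (s * r)) * x ^ ((d + 1) * (s * r))) := by
      unfold La
      refine card_biUnion_le.trans (sum_le_sum fun K hK => ?_)
      rw [mem_filter] at hK
      rw [card_product, card_product, card_product, card_singleton, one_mul, card_range]
      have h2 := card_Pi hs a K hK.2.1
      rw [hK.2.2] at h2
      exact Nat.mul_le_mul hx.2.1 (Nat.mul_le_mul h2 h2)
    rw [sum_const, smul_eq_mul] at h1
    have h3 : ((range (x + 1)).filter (fun K => 1 ≤ K ∧ X s K = x)).card ≤ x * x := by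
      refine (card_filter_le _ _).trans ?_
      rw [card_range]
      nlinarith [hx.2.2]
    have h4 : (La a s x).card ≤ x ^ (2 * ((d + 1) * (s * r)) + 3) := by
      refine h1.trans ((Nat.mul_le_mul_right _ h3).trans (le_of_eq ?_))
      ring
    exact_mod_cast h4

theorem ev_const (hs : 1 ≤ s) (δ : ℝ) (hδ : 0 < δ) (K : ℕ) (hK : 1 ≤ K) :
    (s : ℝ) * (Real.sqrt K * ((X s K : ℕ) : ℝ) ^ (δ / (4 * s))) ≤
      ((s : ℝ) * ((((4 * s ^ 2) ^ s : ℕ) : ℝ) ^ (δ / (4 * s)))) * (K : ℝ) ^ (1 / 2 + δ) := by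
  have hK1 : (1 : ℝ) ≤ K := by exact_mod_cast hK
  have hK0 : (0 : ℝ) < K := by linarith
  have hs1 : (1 : ℝ) ≤ s := by exact_mod_cast hs
  have e1 : ((X s K : ℕ) : ℝ) = (((4 * s ^ 2) ^ s : ℕ) : ℝ) * (K : ℝ) ^ (2 * s) := by
    unfold X
    push_cast
    ring
  have e2 : ((X s K : ℕ) : ℝ) ^ (δ / (4 * s)) = (((4 * s ^ 2) ^ s : ℕ) : ℝ) ^ (δ / (4 * s)) * (K : ℝ) ^ (δ / 2) := by
    rw [e1, Real.mul_rpow (by positivity) (by positivity), ← Real.rpow_natCast, ← Real.rpow_mul hK0.le]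
    congr 2
    push_cast
    field_simp
    ring
  have e3 : Real.sqrt K * (K : ℝ) ^ (δ / 2) ≤ (K : ℝ) ^ (1 / 2 + δ) := by
    rw [Real.sqrt_eq_rpow, ← Real.rpow_add hK0]
    exact Real.rpow_le_rpow_of_exponent_le hK1 (by linarith)
  rw [e2]
  calc (s : ℝ) * (Real.sqrt K * ((((4 * s ^ 2) ^ s : ℕ) : ℝ) ^ (δ / (4 * s)) * (K : ℝ) ^ (δ / 2)))
      = ((s : ℝ) * ((((4 * s ^ 2) ^ s : ℕ) : ℝ) ^ (δ / (4 * s)))) * (Real.sqrt K * (K : ℝ) ^ (δ / 2)) := by ring
    _ ≤ _ := mul_le_mul_of_nonneg_left e3 (by positivity)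

theorem X_pow (hs : 1 ≤ s) (M K : ℕ) (hK : (4 * s ^ 2) ^ s ≤ K) : (X s K) ^ M ≤ K ^ ((2 * s + 1) * (M + 1)) := by
  have hK1 : 1 ≤ K := by
    have := (le_base hs).2
    omega
  have h1 : X s K ≤ K ^ (2 * s + 1) := by
    unfold X
    rw [pow_succ, mul_comm]
    exact Nat.mul_le_mul_left _ hK
  calc (X s K) ^ M ≤ (K ^ (2 * s + 1)) ^ M := Nat.pow_le_pow_left h1 M
    _ = K ^ ((2 * s + 1) * M) := by rw [pow_mul]
    _ ≤ K ^ ((2 * s + 1) * (M + 1)) := Nat.pow_le_pow_right hK1 (by nlinarith)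

open Classical in
/-- **The engine for boxes at consecutive primes.** -/
theorem engine (d s r : ℕ) (hs : 1 ≤ s) (δ : ℝ) (hδ : 0 < δ) (E : ℕ) :
    ∃ (M x₀ : ℕ) (C : ℝ), 1 ≤ M ∧ 0 < C ∧ ∀ (S : Finset ℕ) (x : ℕ → Fin d → ℤ) (H y : ℕ), Well S x H → x₀ ≤ y →
    ∀ a : ℕ → (Fin d → ℕ) → Fin r → ℝ, (∀ p v, a p v = a p (fun i => v i % p)) →
    ((S.filter fun n => ¬ ∀ K : ℕ, y ≤ K → K ^ M ≤ 2 * H + 1 → ∀ I : Fin s → Fin r → Set ℝ,
      (∀ i l, (I i l).OrdConnected) →
      |∑ k ∈ range K, (ind I (fun i => a (pr (k + i)) (nat (Equiv.refl (Fin d)) H x n)) -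
        ∏ i : Fin s, mean d (pr (k + i)) (fun v => ind1 (I i) (a (pr (k + i)) v)))| ≤
          C * (K : ℝ) ^ (1 / 2 + δ)).card : ℝ) ≤ 1 / (y : ℝ) ^ E * S.card := by
  have hs0 : (0 : ℝ) < s := by exact_mod_cast hs
  obtain ⟨M', x₀, hlaw⟩ := lawW d (δ / (4 * s)) E (((2 * ((d + 1) * (s * r)) + 3 : ℕ) : ℝ)) (by positivity)
  obtain ⟨C, hCdef⟩ : ∃ C : ℝ, C = (s : ℝ) * ((((4 * s ^ 2) ^ s : ℕ) : ℝ) ^ (δ / (4 * s))) := ⟨_, rfl⟩
  have hC : 0 < C := by
    rw [hCdef]
    have : (0 : ℝ) < (((4 * s ^ 2) ^ s : ℕ) : ℝ) := by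
      have := (le_base hs).2
      exact_mod_cast (by omega : 0 < (4 * s ^ 2) ^ s)
    positivity
  refine ⟨(2 * s + 1) * (M' + 1), x₀ + (4 * s ^ 2) ^ s + 1, C, Nat.succ_le_of_lt (by positivity), hC,
    fun S x H y hw hy a ha => ?_⟩
  have hyr : (1 : ℝ) ≤ y := by exact_mod_cast (by omega : 1 ≤ y)
  have hy0 : (0 : ℝ) < y := by linarith
  have e1 : 1 / (y : ℝ) ^ E = (y : ℝ) ^ (-(E : ℝ)) := by
    rw [Real.rpow_neg hy0.le, Real.rpow_natCast, one_div]
  rw [e1]
  refine hlaw S (nat (Equiv.refl (Fin d)) H x) H y (wellN_nat (Equiv.refl (Fin d)) hw) (by omega)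
    (ℕ × ℕ × (Fin s → Fin r → ℝ) × (Fin s → Fin r → ℝ)) (La a s) (fun T _ => card_La hs a T) ℕ
    (fun _ l => (range l.1).filter (fun k => k % s = l.2.1)) (fun _ k => qs s k)
    ?_ ?_ ?_ (fun l k v => ind (Jb l.2.2.1 l.2.2.2) (fun i => a (pr (k + i)) v)) ?_ ?_ _ (filter_subset _ _) ?_
  · intro T l hl
    rw [mem_La] at hl
    refine (card_filter_le _ _).trans ?_
    rw [card_range]
    exact hl.1.1
  · intro T l hl k hk
    rw [mem_La] at hl
    rw [mem_filter, mem_range] at hk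
    have h1 := qs_le_X hs l.1 k hk.1
    rw [hl.1.2.2] at h1
    exact h1
  · intro T l _ k hk k' hk' hne
    rw [mem_filter, mem_range] at hk hk'
    have key : ∀ j j' : ℕ, j % s = j' % s → j < j' → j + s ≤ j' := by
      intro j j' h1 h2
      have h3 := Nat.div_add_mod j s
      have h4 := Nat.div_add_mod j' s
      have h5 : j / s < j' / s := by
        by_contra h6
        push Not at h6
        have h7 : s * (j' / s) ≤ s * (j / s) := Nat.mul_le_mul_left s h6
        omega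
      have h8 : s * (j / s + 1) ≤ s * (j' / s) := Nat.mul_le_mul_left s h5
      rw [mul_add, mul_one] at h8
      omega
    rcases lt_or_gt_of_ne hne with h | h
    · exact qs_coprime s k k' (key k k' (by rw [hk.2, hk'.2]) h)
    · exact (qs_coprime s k' k (key k' k (by rw [hk.2, hk'.2]) h)).symm
  · intro T l _ k _ v
    show ind (Jb l.2.2.1 l.2.2.2) (fun i => a (pr (k + i)) v) =
      ind (Jb l.2.2.1 l.2.2.2) (fun i => a (pr (k + i)) (fun j => v j % qs s k))
    congr 1
    funext i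
    rw [ha (pr (k + i)) v, ha (pr (k + i)) (fun j => v j % qs s k)]
    congr 1
    funext j
    exact (Nat.mod_mod_of_dvd (v j) (pr_dvd_qs k i)).symm
  · intro T l _ k _ v
    exact ind_abs _ _
  · intro n hn
    rw [mem_filter] at hn
    have h4 := hn.2
    push Not at h4
    obtain ⟨K, hyK, hKM, I, hI, hlt⟩ := h4
    have hK1 : 1 ≤ K := by omega
    have hKr : (1 : ℝ) ≤ K := by exact_mod_cast hK1
    have hX := le_X hs K hK1
    have hXM : (X s K) ^ M' ≤ 2 * H + 1 := (X_pow hs M' K (by omega)).trans hKM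
    refine ⟨X s K, by omega, hXM, ?_⟩
    have hprod : ∀ k, ∏ i : Fin s, mean d (pr (k + i)) (fun v => ind1 (I i) (a (pr (k + i)) v)) =
        mean d (qs s k) (fun v => ind I (fun i => a (pr (k + i)) v)) := fun k => (mean_ind k a ha I).symm
    simp only [hprod] at hlt
    rcases reduce a ha K I hI with hz | ⟨A, hA, B, hB, hAB⟩
    · exfalso
      have h0 : ∑ k ∈ range K, (ind I (fun i => a (pr (k + i)) (nat (Equiv.refl (Fin d)) H x n)) -
          mean d (qs s k) (fun v => ind I (fun i => a (pr (k + i)) v))) = 0 := by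
        refine sum_eq_zero fun k hk => ?_
        rw [mem_range] at hk
        have h5 : (fun v => ind I (fun i => a (pr (k + i)) v)) = fun _ => (0 : ℝ) := by
          funext v
          exact hz k hk v
        rw [hz k hk, h5, mean_const d _ (qs_le_X hs K k hk).1, sub_zero]
      rw [h0, abs_zero] at hlt
      have : 0 ≤ C * (K : ℝ) ^ (1 / 2 + δ) := by positivity
      linarith
    · have h0 : ∑ k ∈ range K, (ind I (fun i => a (pr (k + i)) (nat (Equiv.refl (Fin d)) H x n)) -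
          mean d (qs s k) (fun v => ind I (fun i => a (pr (k + i)) v))) =
          ∑ j ∈ range s, ∑ k ∈ (range K).filter (fun k => k % s = j),
            (ind (Jb A B) (fun i => a (pr (k + i)) (nat (Equiv.refl (Fin d)) H x n)) -
              mean d (qs s k) (fun v => ind (Jb A B) (fun i => a (pr (k + i)) v))) := by
        rw [sum_fiberwise_of_maps_to (fun k _ => mem_range.mpr (Nat.mod_lt k hs))]
        refine sum_congr rfl fun k hk => ?_
        rw [mem_range] at hk
        rw [hAB k hk]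
        congr 2
        funext v
        exact hAB k hk v
      rw [h0] at hlt
      by_contra hcon
      push Not at hcon
      have hj : ∀ j ∈ range s, |∑ k ∈ (range K).filter (fun k => k % s = j),
            (ind (Jb A B) (fun i => a (pr (k + i)) (nat (Equiv.refl (Fin d)) H x n)) -
              mean d (qs s k) (fun v => ind (Jb A B) (fun i => a (pr (k + i)) v)))| ≤
              Real.sqrt K * ((X s K : ℕ) : ℝ) ^ (δ / (4 * s)) := by
        intro j hj
        rw [mem_range] at hj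
        have h5 := hcon (K, j, A, B) (mem_La.2 ⟨⟨hX.1, hK1, rfl⟩, hj, hA, hB⟩)
        have h6 : |∑ k ∈ (range K).filter (fun k => k % s = j),
            (ind (Jb A B) (fun i => a (pr (k + i)) (nat (Equiv.refl (Fin d)) H x n)) -
              mean d (qs s k) (fun v => ind (Jb A B) (fun i => a (pr (k + i)) v)))| ≤
            Real.sqrt (max 1 (∑ k ∈ (range K).filter (fun k => k % s = j), mean d (qs s k)
              (fun v => ind (Jb A B) (fun i => a (pr (k + i)) v) ^ 2))) * ((X s K : ℕ) : ℝ) ^ (δ / (4 * s)) := by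
          rw [sum_sub_distrib]
          exact h5
        refine h6.trans (mul_le_mul_of_nonneg_right (Real.sqrt_le_sqrt (max_le hKr ?_)) (by positivity))
        calc ∑ k ∈ (range K).filter (fun k => k % s = j), mean d (qs s k)
              (fun v => ind (Jb A B) (fun i => a (pr (k + i)) v) ^ 2)
            ≤ ∑ k ∈ (range K).filter (fun k => k % s = j), (1 : ℝ) := by
              refine sum_le_sum fun k hk => ?_
              rw [mem_filter, mem_range] at hk
              rw [← mean_const d (qs s k) (qs_le_X hs K k hk.1).1 1]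
              apply mean_mono
              intro v
              exact pow_le_one₀ (ind_nonneg _ _) (ind_le _ _)
          _ = (((range K).filter (fun k => k % s = j)).card : ℝ) := by simp
          _ ≤ K := by
              have := card_filter_le (range K) (fun k => k % s = j)
              rw [card_range] at this
              exact_mod_cast this
      have h7 : |∑ j ∈ range s, ∑ k ∈ (range K).filter (fun k => k % s = j),
            (ind (Jb A B) (fun i => a (pr (k + i)) (nat (Equiv.refl (Fin d)) H x n)) -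
              mean d (qs s k) (fun v => ind (Jb A B) (fun i => a (pr (k + i)) v)))| ≤
              (s : ℝ) * (Real.sqrt K * ((X s K : ℕ) : ℝ) ^ (δ / (4 * s))) := by
        refine (abs_sum_le_sum_abs _ _).trans ((sum_le_sum hj).trans (le_of_eq ?_))
        rw [sum_const, card_range, nsmul_eq_mul]
      have h8 := ev_const hs δ hδ K hK1
      rw [← hCdef] at h8
      linarith

end

end Pool.Agent.Run7.h712.CB
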